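import Pool.Agent.W856.SV.Stms

/-!
# SV-ROW: the one-row proposition
-/

set_option autoImplicit false

open MeasureTheory Matrix
open scoped ENNReal

namespace Pool.Agent.W230.SV

open Pool.Agent.W856.SV

theorem ofReal_step {A X : ℝ≥0∞} {a b c : ℝ} (hA : A ≤ ENNReal.ofReal a)
    (hX : ENNReal.ofReal b ≤ X) (hc : 0 ≤ c) (h : a ≤ c * b) : A ≤ ENNReal.ofReal c * X := by
  refine hA.trans ?_
  refine (ENNReal.ofReal_le_ofReal h).trans ?_
  rw [ENNReal.ofReal_mul hc]
  exact mul_le_mul_right hX _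

theorem t_ROW (ht : S_T) (h1 : S_O1) (h2 : S_O2) : S_ROW := by
  intro μ K hμ
  obtain ⟨C0, hC0, hT⟩ := ht μ K hμ
  obtain ⟨C1, hC1, hO1⟩ := h1 μ K hμ
  obtain ⟨C2, hC2, hO2⟩ := h2 μ K hμ
  set C : ℝ := 2 * C0 + 2 * C0 * C1 + 2 * C0 * C2 with hC
  have hCpos : 0 < C := by positivity
  refine ⟨C, hCpos, ?_⟩
  intro ι _ _ ν u lam hrow c h hh hbad
  set q : ℝ := 1 + Real.sqrt (hs lam) + Real.sqrt (bt u lam c) with hq
  set g : ℝ := |ν ⬝ᵥ c| * Real.sqrt (hs lam) with hg
  have hs0 : 0 ≤ Real.sqrt (hs lam) := Real.sqrt_nonneg _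
  have hb0 : 0 ≤ Real.sqrt (bt u lam c) := Real.sqrt_nonneg _
  have hq1 : 1 ≤ q := by rw [hq]; linarith
  have hq0 : 0 < q := by linarith
  have hg0 : 0 ≤ g := mul_nonneg (abs_nonneg _) hs0
  have hX := hT ι ν u lam hrow c
  have hX' : ENNReal.ofReal (1 / (C0 * (q + g))) ≤ XX μ ν u lam c := by
    have e : q + g = 1 + Real.sqrt (hs lam) + Real.sqrt (bt u lam c) +
        |ν ⬝ᵥ c| * Real.sqrt (hs lam) := by rw [hq, hg]
    rw [e]
    exact hX
  by_cases hle : g ≤ q
  · have hA := hO1 ι ν u lam hrow c h hh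
    rw [← hq] at hA
    refine ofReal_step hA hX' (by positivity) ?_
    have h3 : 0 < C0 * (q + g) := by positivity
    rw [div_mul_div_comm, mul_one, div_le_div_iff₀ (by positivity) (by positivity)]
    have h4 : C1 * (h * (C0 * (q + g))) ≤ C1 * (h * (C0 * (q + q))) := by
      have : C0 * (q + g) ≤ C0 * (q + q) := mul_le_mul_of_nonneg_left (by linarith) hC0.le
      exact mul_le_mul_of_nonneg_left (mul_le_mul_of_nonneg_left this hh.le) hC1.le
    refine h4.trans ?_
    have h5 : C1 * (h * (C0 * (q + q))) = (2 * C0 * C1) * (h * q) := by ring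
    rw [h5]
    apply mul_le_mul_of_nonneg_right _ (by positivity)
    rw [hC]
    have : 0 ≤ 2 * C0 + 2 * C0 * C2 := by positivity
    linarith
  · push Not at hle
    -- `g > q`
    have hspos : 0 < Real.sqrt (hs lam) := by
      rcases hs0.eq_or_lt with h3 | h3
      · exfalso
        rw [hg, ← h3, mul_zero] at hle
        linarith
      · exact h3
    have hslam : 0 < hs lam := Real.sqrt_pos.mp hspos
    have habs : 1 ≤ |ν ⬝ᵥ c| := by
      by_contra hcon
      push Not at hcon
      have h4 : g ≤ Real.sqrt (hs lam) := by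
        rw [hg]
        calc |ν ⬝ᵥ c| * Real.sqrt (hs lam) ≤ 1 * Real.sqrt (hs lam) :=
              mul_le_mul_of_nonneg_right hcon.le hs0
          _ = _ := one_mul _
      linarith
    have hgpos : 0 < g := by linarith
    have hX2 : ENNReal.ofReal (1 / (2 * C0 * g)) ≤ XX μ ν u lam c := by
      refine le_trans (ENNReal.ofReal_le_ofReal ?_) hX'
      apply one_div_le_one_div_of_le (by positivity)
      have : C0 * (q + g) ≤ C0 * (g + g) := mul_le_mul_of_nonneg_left (by linarith) hC0.le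
      linarith
    have hnb : ¬ ∃ j, Bad ν (ν ⬝ᵥ c) (hs lam) j := by
      intro hj
      apply hbad
      refine ⟨hj, ?_⟩
      have h5 : (1 : ℝ≥0∞) ≤ ENNReal.ofReal (C * g) * ENNReal.ofReal (1 / (2 * C0 * g)) := by
        rw [← ENNReal.ofReal_mul (by positivity), ← ENNReal.ofReal_one]
        apply ENNReal.ofReal_le_ofReal
        rw [mul_one_div, le_div_iff₀ (by positivity), one_mul]
        apply mul_le_mul_of_nonneg_right _ hg0
        rw [hC]
        have : 0 ≤ 2 * C0 * C1 + 2 * C0 * C2 := by positivity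
        linarith
      have e : C * |ν ⬝ᵥ c| * Real.sqrt (hs lam) = C * g := by rw [hg]; ring
      rw [e]
      exact h5.trans (mul_le_mul_right hX2 _)
    have hA := hO2 ι ν u lam hrow c h hh habs hslam hnb
    refine ofReal_step hA hX2 (by positivity) ?_
    have e : h * |ν ⬝ᵥ c| * Real.sqrt (hs lam) = h * g := by rw [hg]; ring
    rw [e, div_mul_div_comm, mul_one, div_le_div_iff₀ (by positivity) (by positivity)]
    have h6 : C2 * (h * (2 * C0 * g)) = (2 * C0 * C2) * (h * g) := by ring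
    rw [h6]
    apply mul_le_mul_of_nonneg_right _ (by positivity)
    rw [hC]
    have : 0 ≤ 2 * C0 + 2 * C0 * C1 := by positivity
    linarith

end Pool.Agent.W230.SV
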